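import Pool.Agent.Helper79.SA.Goals

/-! Packet RD: continuous reading of names. -/

open MeasureTheory Filter Topology Set

noncomputable section

namespace SA.PkRD

open Pool.Agent.Helper97.Ku

theorem mem_iffV {K : Type} {a b : RO (Cnd K)} {c : Cnd K} :
    c ∈ NU.iffV a b ↔ (∀ q, q ≤ c → q ∈ a → q ∈ b) ∧ (∀ q, q ≤ c → q ∈ b → q ∈ a) := by
  unfold NU.iffV
  rw [RO.mem_inf, RO.mem_himp, RO.mem_himp]

theorem rd (fup : G_FUP) (pcs : G_PCS) (eh : G_EH) : G_RD := by
  classical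
  intro K _ w p
  obtain ⟨e1, e2, e3, -⟩ := eh K
  obtain ⟨q, hq, F, k, hD⟩ := fup K p (fun n => {r | r ∈ w n ∨ r ∈ (w n)ᶜ})
    (fun n r hr => by
      obtain ⟨r', h1, h2⟩ := RO.mem_or_compl (a := w n) r
      exact ⟨r', h1, h2⟩)
    (fun n r r' hr hle => by
      rcases hr with hr | hr
      · exact Or.inl (RO.lower hle hr)
      · exact Or.inr (RO.lower hle hr))
  let C : ℕ → Set (K → Rl) := fun n =>
    ⋃ c ∈ {c : Cnd K | (∃ s, c = q * box (F n) (k n) s) ∧ c ∈ w n}, c.rg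
  have hC : ∀ n, MeasurableSet (C n) := by
    intro n
    have hf : {c : Cnd K | (∃ s, c = q * box (F n) (k n) s) ∧ c ∈ w n}.Finite :=
      (pcs K q (F n) (k n)).1.subset (fun c hc => hc.1)
    exact Set.Finite.measurableSet_biUnion hf (fun c _ => (pcs K c ∅ 0).2.2.2.2)
  refine ⟨q, hq, fun z n => decide (z ∈ C n), ?_, fun n => ?_⟩
  · refine measurable_pi_iff.2 fun n => ?_
    refine measurable_to_bool ?_
    have : (fun z => decide (z ∈ C n)) ⁻¹' {true} = C n := by
      ext z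
      simp
    rw [this]
    exact hC n
  · have hCn : {z : K → Rl | decide (z ∈ C n) = true} = C n := by
      ext z
      simp
    show q ∈ NU.iffV (w n) (ee {z : K → Rl | decide (z ∈ C n) = true})
    rw [hCn]
    obtain ⟨p1, p2, p3, p4, p5⟩ := pcs K q (F n) (k n)
    refine p4 _ fun s => ?_
    rcases hD n s with h | h
    · have h1 : (q * box (F n) (k n) s).rg ⊆ C n := by
        intro z hz
        exact Set.mem_iUnion₂.2 ⟨_, ⟨⟨s, rfl⟩, h⟩, hz⟩
      have h2 := e1 _ _ h1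
      exact mem_iffV.2 ⟨fun r hr _ => RO.lower hr h2, fun r hr _ => RO.lower hr h⟩
    · have h1 : (q * box (F n) (k n) s).rg ⊆ (C n)ᶜ := by
        intro z hz hzC
        obtain ⟨c, ⟨⟨s', rfl⟩, hc⟩, hzc⟩ := Set.mem_iUnion₂.1 hzC
        have := p3 s s' z hz hzc
        rw [← this] at hc
        exact RO.not_mem_compl hc h
      have h2 := e3 _ _ h1
      exact mem_iffV.2 ⟨fun r hr hr' => absurd (RO.lower hr h) (fun h' => RO.not_mem_compl hr' h'),
        fun r hr hr' => absurd (RO.lower hr h2) (fun h' => RO.not_mem_compl hr' h')⟩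

end SA.PkRD
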